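import Mathlib

open Complex Set Topology

namespace RLA

lemma near (a b : ℂ) (ha : Complex.exp a = 1) (hb : Complex.exp b = 1) (h : dist a b < 1) : a = b := by
  obtain ⟨n, hn⟩ := Complex.exp_eq_exp_iff_exists_int.1 (ha.trans hb.symm)
  have h2 : dist a b = |(n : ℝ)| * (2 * Real.pi) := by
    rw [dist_eq_norm, hn]
    have : b + (n : ℂ) * (2 * (Real.pi : ℂ) * Complex.I) - b = ((n : ℝ) : ℂ) * ((2 * Real.pi : ℝ) : ℂ) * Complex.I := by
      push_cast; ring
    rw [this, norm_mul, norm_mul, Complex.norm_I, mul_one, Complex.norm_real, Complex.norm_real,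
      Real.norm_eq_abs, Real.norm_eq_abs, abs_of_pos Real.two_pi_pos]
  have h3 : n = 0 := by
    by_contra h0
    have h1 : (1 : ℝ) ≤ |(n : ℝ)| := by
      rw [← Int.cast_abs]
      exact_mod_cast Int.one_le_abs h0
    have h4 : (3 : ℝ) < Real.pi := Real.pi_gt_three
    rw [h2] at h
    nlinarith
  rw [hn, h3]; simp

lemma const (f : unitInterval → ℂ) (hf : Continuous f) (h1 : ∀ t, Complex.exp (f t) = 1) (s t : unitInterval) :
    f s = f t := by
  have hl : IsLocallyConstant f := by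
    rw [IsLocallyConstant.iff_eventually_eq]
    intro x
    have := (Metric.continuous_iff'.1 hf) x 1 one_pos
    filter_upwards [this] with y hy
    exact near _ _ (h1 y) (h1 x) hy
  exact hl.apply_eq_of_preconnectedSpace s t

theorem RL (Y : Set (ℂ × ℂ))
    (hLP : ∀ G : ℂ × ℂ → ℂ, ContinuousOn G Y → (∀ y ∈ Y, G y ≠ 0) →
      ∃ L : ℂ × ℂ → ℂ, ContinuousOn L Y ∧ ∀ y ∈ Y, Complex.exp (L y) = G y)
    (F : ℂ × ℂ → ℝ) (hF : Continuous F) (l : ℝ) (x x1 : ℂ × ℂ) (hx : x ∈ Y) (hx1 : x1 ∈ Y)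
    (hxl : F x = l) (hxl1 : F x1 = l)
    (hm : JoinedIn {y | y ∈ Y ∧ F y ≤ l} x x1) (hp : JoinedIn {y | y ∈ Y ∧ l ≤ F y} x x1)
    (c : ℂ × ℂ → ℂ) (hc : ContinuousOn c {y | y ∈ Y ∧ F y = l})
    (hc1 : ∀ y ∈ Y, F y = l → Complex.exp (c y) = 1) : c x = c x1 := by
  by_contra hne
  set Z : Set (ℂ × ℂ) := {y | y ∈ Y ∧ F y = l} with hZ
  set A : Set (ℂ × ℂ) := {y | y ∈ Z ∧ c y = c x} with hA
  set B : Set (ℂ × ℂ) := {y | y ∈ Z ∧ c y ≠ c x} with hB
  have hxA : x ∈ A := ⟨⟨hx, hxl⟩, rfl⟩
  have hx1B : x1 ∈ B := ⟨⟨hx1, hxl1⟩, fun h => hne h.symm⟩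
  have hZc : ∀ y ∈ Y, y ∈ closure Z → y ∈ Z := by
    intro y hy hyc
    refine ⟨hy, ?_⟩
    have : closure Z ⊆ {y | F y = l} :=
      closure_minimal (fun z hz => hz.2) (isClosed_eq hF continuous_const)
    exact this hyc
  have key : ∀ y ∈ Y, y ∈ closure Z → ∃ U ∈ 𝓝 y, ∀ z ∈ U, z ∈ Z → c z = c y := by
    intro y hy hyc
    have hyZ := hZc y hy hyc
    have h1 := Metric.continuousWithinAt_iff'.1 (hc y hyZ) 1 one_pos
    rw [eventually_nhdsWithin_iff] at h1
    refine ⟨_, h1, ?_⟩
    intro z hz hzZ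
    exact near _ _ (hc1 z hzZ.1 hzZ.2) (hc1 y hyZ.1 hyZ.2) (hz hzZ)
  have hAZ : A ⊆ Z := fun z hz => hz.1
  have hBZ : B ⊆ Z := fun z hz => hz.1
  have hAc : ∀ y ∈ Y, y ∈ closure A → c y = c x := by
    intro y hy hyA
    obtain ⟨U, hU, hUc⟩ := key y hy (closure_mono hAZ hyA)
    obtain ⟨z, hzU, hzA⟩ := mem_closure_iff_nhds.1 hyA U hU
    rw [← hUc z hzU hzA.1]; exact hzA.2
  have hBc : ∀ y ∈ Y, y ∈ closure B → c y ≠ c x := by
    intro y hy hyB
    obtain ⟨U, hU, hUc⟩ := key y hy (closure_mono hBZ hyB)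
    obtain ⟨z, hzU, hzB⟩ := mem_closure_iff_nhds.1 hyB U hU
    rw [← hUc z hzU hzB.1]; exact hzB.2
  have hpos : ∀ y ∈ Y, Metric.infDist y A + Metric.infDist y B ≠ 0 := by
    intro y hy h0
    have ha : 0 ≤ Metric.infDist y A := Metric.infDist_nonneg
    have hb : 0 ≤ Metric.infDist y B := Metric.infDist_nonneg
    have ha0 : Metric.infDist y A = 0 := by linarith
    have hb0 : Metric.infDist y B = 0 := by linarith
    exact hBc y hy ((Metric.mem_closure_iff_infDist_zero ⟨x1, hx1B⟩).2 hb0)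
      (hAc y hy ((Metric.mem_closure_iff_infDist_zero ⟨x, hxA⟩).2 ha0))
  set u : ℂ × ℂ → ℝ := fun y => Metric.infDist y A / (Metric.infDist y A + Metric.infDist y B) with hu
  have huc : ContinuousOn u Y := by
    apply ContinuousOn.div
    · exact (Metric.continuous_infDist_pt A).continuousOn
    · exact ((Metric.continuous_infDist_pt A).add (Metric.continuous_infDist_pt B)).continuousOn
    · exact hpos
  have huA : ∀ y ∈ A, u y = 0 := by
    intro y hy
    simp only [hu, Metric.infDist_zero_of_mem hy, zero_div]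
  have huB : ∀ y ∈ B, u y = 1 := by
    intro y hy
    have h := hpos y hy.1.1
    simp only [hu]
    rw [Metric.infDist_zero_of_mem hy, add_zero] at h ⊢
    exact div_self h
  have hE : ∀ y ∈ Y, F y = l → Complex.exp (2 * Real.pi * Complex.I * (u y : ℂ)) = 1 := by
    intro y hy hyl
    by_cases h : c y = c x
    · rw [huA y ⟨⟨hy, hyl⟩, h⟩]; simp
    · rw [huB y ⟨⟨hy, hyl⟩, h⟩]; simp [Complex.exp_two_pi_mul_I]
  have hec : ContinuousOn (fun y => Complex.exp (2 * Real.pi * Complex.I * (u y : ℂ))) Y := by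
    apply Complex.continuous_exp.comp_continuousOn
    apply ContinuousOn.mul continuousOn_const
    exact Complex.continuous_ofReal.comp_continuousOn huc
  classical
  set G : ℂ × ℂ → ℂ := fun y => if F y ≤ l then Complex.exp (2 * Real.pi * Complex.I * (u y : ℂ)) else 1 with hG
  have hGc : ContinuousOn G Y := by
    apply ContinuousOn.if
    · intro y hy
      have h2 : y ∈ {y | F y = l} := (frontier_le_subset_eq hF continuous_const) hy.2
      exact hE y hy.1 h2
    · exact hec.mono inter_subset_left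
    · exact continuousOn_const
  have hG0 : ∀ y ∈ Y, G y ≠ 0 := by
    intro y hy
    simp only [hG]
    split_ifs
    · exact Complex.exp_ne_zero _
    · exact one_ne_zero
  obtain ⟨L, hL, hLe⟩ := hLP G hGc hG0
  obtain ⟨gm, hgm⟩ := hm
  obtain ⟨gp, hgp⟩ := hp
  have h1 : L x - 2 * Real.pi * Complex.I * (u x : ℂ) = L x1 - 2 * Real.pi * Complex.I * (u x1 : ℂ) := by
    have hf : Continuous (fun t : unitInterval => L (gm t) - 2 * Real.pi * Complex.I * (u (gm t) : ℂ)) := by
      apply Continuous.sub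
      · exact hL.comp_continuous gm.continuous (fun t => (hgm t).1)
      · apply continuous_const.mul
        exact Complex.continuous_ofReal.comp (huc.comp_continuous gm.continuous (fun t => (hgm t).1))
    have hval : ∀ t, Complex.exp (L (gm t) - 2 * Real.pi * Complex.I * (u (gm t) : ℂ)) = 1 := by
      intro t
      rw [Complex.exp_sub, hLe _ (hgm t).1]
      simp only [hG]
      rw [if_pos (hgm t).2]
      exact div_self (Complex.exp_ne_zero _)
    have := const _ hf hval 0 1
    simpa using this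
  have h2 : L x = L x1 := by
    have hf : Continuous (fun t : unitInterval => L (gp t)) :=
      hL.comp_continuous gp.continuous (fun t => (hgp t).1)
    have hval : ∀ t, Complex.exp (L (gp t)) = 1 := by
      intro t
      rw [hLe _ (hgp t).1]
      simp only [hG]
      split_ifs with h
      · exact hE _ (hgp t).1 (le_antisymm h (hgp t).2)
      · rfl
    have := const _ hf hval 0 1
    simpa using this
  rw [h2, huA x hxA, huB x1 hx1B] at h1
  have h3 : (2 * Real.pi * Complex.I : ℂ) = 0 := by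
    have h4 : L x1 = L x1 - 2 * Real.pi * Complex.I := by simpa using h1
    have : (2 * Real.pi * Complex.I : ℂ) = L x1 - (L x1 - 2 * Real.pi * Complex.I) := by ring
    rw [this, ← h4, sub_self]
  exact Complex.two_pi_I_ne_zero h3

end RLA
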